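import Pool.Agent.Helper75.OE.GoalsB

/-!
Project OE (MP_fc0446_an), packet FAT: the flip in terms of the states of the run.
-/

namespace Pool.Agent.Helper15.OE

open Pool.Agent.Helper73.OE Pool.Agent.Helper73.OE.Sys Pool.Agent.Helper75.OE

section

variable {H S L : Type} [Group H] (X : Sys H S L)

/-- The basic fact: the hypothesis `y ≠ f v p` holds again for the rest of the run. -/
theorem basic_fact {O : Edges H S} {f : Cfg H S L} (hM : X.MA O Set.univ f) {v : H} {p : S}
    {y : L} (hy : y ≠ f v p) (ho : O v ((f v).symm y)) :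
    (f v).symm y ≠ p ∧
      X.tau (f v p) ≠ f (X.nb v ((f v).symm y)) (X.bar ((f v).symm y)) := by
  constructor
  · intro h
    apply hy
    rw [← h, Equiv.apply_symm_apply]
  · intro h
    have h1 : X.Mt f v ((f v).symm y) := hM v _ (Set.mem_univ _) (Set.mem_univ _) ho
    unfold Sys.Mt at h1
    rw [h1, Equiv.apply_symm_apply] at h
    apply hy
    have h2 := congrArg X.tau h
    rw [X.tau_tau, X.tau_tau] at h2
    exact h2.symm

/-- A run in matched edges stays in the side of its start. -/
theorem at_mem_Sd {O : Edges H S} {f : Cfg H S L} (hM : X.MA O Set.univ f) {v : H} {p : S}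
    {y : L} {z : H} {p' : S} {y' : L} (h : At X O f v p y z p' y') (hy : y ≠ f v p) :
    z ∈ X.Sd v p := by
  induction h with
  | here v p y => exact X.self_mem_Sd v p
  | step v p y z p' y' ho h ih =>
    obtain ⟨h1, h2⟩ := basic_fact X hM hy ho
    exact X.branch_subset h1 (ih h2)

open Classical in
theorem flip_at (h1 : A_FREC) {O : Edges H S} {f : Cfg H S L} (hM : X.MA O Set.univ f) {v : H}
    {p : S} {y : L} {z : H} {p' : S} {y' : L} (h : At X O f v p y z p' y') (hy : y ≠ f v p) :
    X.flip O v p y f z = (f z).trans (Equiv.swap (f z p') y') := by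
  induction h with
  | here v p y =>
    exact (h1 H S L X O v p y f hy (fun a s _ _ ha => hM a s (Set.mem_univ _) (Set.mem_univ _)
      ha)).1
  | step v p y z p' y' ho h ih =>
    obtain ⟨h3, h2⟩ := basic_fact X hM hy ho
    have hz : z ∈ X.Sd (X.nb v ((f v).symm y)) (X.bar ((f v).symm y)) := at_mem_Sd X hM h h2
    have hzv : z ≠ v := by
      rintro rfl
      exact X.notMem_Sd_bar _ _ hz
    have h4 := (h1 H S L X O v p y f hy (fun a s _ _ ha => hM a s (Set.mem_univ _)
      (Set.mem_univ _) ha)).2.2.1 ho z hzv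
    rw [h4]
    exact ih h2

theorem flipP_notOnRun (O : Edges H S) (f : Cfg H S L) (z : H) :
    ∀ (n : ℕ) (v : H) (p : S) (y : L), ¬ X.OnRun O f v p y z → X.flipP O f z n v p y = 1 := by
  intro n
  induction n with
  | zero =>
    intro v p y hz
    have hne : z ≠ v := by
      rintro rfl; exact hz (OnRun.here _ _ _)
    rw [Sys.flipP, if_neg hne]
  | succ n ih =>
    intro v p y hz
    have hne : z ≠ v := by
      rintro rfl; exact hz (OnRun.here _ _ _)
    rw [Sys.flipP, if_neg hne]
    by_cases h : O v ((f v).symm y)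
    · rw [if_pos h]
      exact ih _ _ _ (fun h2 => hz (OnRun.step _ _ _ _ h h2))
    · rw [if_neg h]

end

/-- `B_FAT` from `A_FREC`. -/
theorem fat (h1 : A_FREC) : B_FAT := by
  intro H S L _ X O f v p y
  refine ⟨?_, ?_⟩
  · intro hM hy z p' y' h
    exact flip_at X h1 hM h hy
  · intro z hz
    unfold Sys.flip
    rw [flipP_notOnRun X O f z _ _ _ _ hz]
    ext x; rfl

end Pool.Agent.Helper15.OE
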