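import Pool.Agent.Helper75.OE.GoalsA

/-!
Project OE (MP_fc0446_an), packet UPI: the update changes nothing outside the volume.
-/

namespace Pool.Agent.Helper15.OE

open Pool.Agent.Helper73.OE Pool.Agent.Helper73.OE.Sys Pool.Agent.Helper75.OE

variable {H S L : Type} [Group H] (X : Sys H S L)

omit [Group H] in
theorem ne_of_mem_notMem {Λ : Set H} {z v : H} (hv : v ∈ Λ) (hz : z ∉ Λ) : z ≠ v := by
  rintro rfl; exact hz hv

theorem flipP_out (O : Edges H S) (f : Cfg H S L) (Λ : Set H)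
    (hO : ∀ z r, O z r → z ∈ Λ ∧ X.nb z r ∈ Λ) (z : H) (hz : z ∉ Λ) :
    ∀ (n : ℕ) (v : H) (p : S) (y : L), v ∈ Λ → X.flipP O f z n v p y = 1 := by
  intro n
  induction n with
  | zero =>
    intro v p y hv
    rw [Sys.flipP, if_neg (ne_of_mem_notMem hv hz)]
  | succ n ih =>
    intro v p y hv
    rw [Sys.flipP, if_neg (ne_of_mem_notMem hv hz)]
    by_cases h : O v ((f v).symm y)
    · rw [if_pos h]
      exact ih _ _ _ (hO _ _ h).2
    · rw [if_neg h]

theorem armP_out (O : Edges H S) (f : Cfg H S L) (Λ : Set H)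
    (hO : ∀ z r, O z r → z ∈ Λ ∧ X.nb z r ∈ Λ) (z : H) (hz : z ∉ Λ)
    (u : H) (t : S) (y : L) : X.armP O f z u t y = 1 := by
  rw [Sys.armP]
  by_cases h : O u t
  · rw [if_pos h]
    exact flipP_out X O f Λ hO z hz _ _ _ _ (hO _ _ h).2
  · rw [if_neg h]

theorem triP_out (O : Edges H S) (f : Cfg H S L) (Λ : Set H)
    (hO : ∀ z r, O z r → z ∈ Λ ∧ X.nb z r ∈ Λ) (z : H) (hz : z ∉ Λ) (M : ℕ) :
    ∀ (m : ℕ) (v : H) (p : S) (y k : L), v ∈ Λ → X.Av O M f m v p y k →
      X.triP O f z m v p y k = 1 := by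
  intro m
  induction m with
  | zero =>
    intro v p y k hv _
    rw [Sys.triP, if_neg (ne_of_mem_notMem hv hz), armP_out X O f Λ hO z hz,
      armP_out X O f Λ hO z hz]
    rfl
  | succ m ih =>
    intro v p y k hv hav
    rw [Sys.Av] at hav
    rw [Sys.triP, if_neg (ne_of_mem_notMem hv hz)]
    exact ih _ _ _ _ (hO _ _ hav.1).2 hav.2

theorem trans_one (e : S ≃ L) : e.trans (1 : Equiv.Perm L) = e := by
  ext x; rfl

theorem pick_mem {ι : Type} (cap : ℕ) (A : Finset ι) (u : ℕ) (j : ι)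
    (h : pick cap A u = some j) : j ∈ A := by
  unfold pick at h
  split_ifs at h with h1
  have h2 := Option.some.inj h
  rw [← h2]
  exact (A.equivFin.symm ⟨u, h1.2⟩).2

/-- `A_UPI`, without hypotheses. -/
theorem upi : A_UPI := by
  intro H S L _ _ X P O Λ v s u f hO hv hw z hz
  classical
  unfold Sys.Upd
  by_cases h1 : X.tau (f (X.nb v s) (X.bar s)) = f v s
  · rw [if_pos h1]
  · rw [if_neg h1]
    by_cases h2 : ∃ i, X.Cheap P O v s u f i
    · rw [dif_pos h2]
      have h3 := h2.choose_spec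
      have h4 : h2.choose ∈ X.AS P O f v s (X.tau (f (X.nb v s) (X.bar s))) :=
        pick_mem _ _ _ _ h3.1
      have h5 : X.Av O P.M f (2 * (h2.choose.1 : ℕ) + 1) v s
          (X.tau (f (X.nb v s) (X.bar s))) h2.choose.2 := by
        have h6 := h4
        unfold Sys.AS at h6
        exact (Finset.mem_filter.1 h6).2
      unfold Sys.TRi Sys.TR
      rw [triP_out X O f Λ hO z hz P.M _ _ _ _ _ hv h5]
      exact trans_one _
    · rw [dif_neg h2]
      unfold Sys.flip
      rw [flipP_out X O f Λ hO z hz _ _ _ _ hw]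
      exact trans_one _

end Pool.Agent.Helper15.OE
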